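import Pool.Agent.H52.CD.Def

/-!
# [CD] The models of exceptional type
-/

set_option autoImplicit false

namespace Pool.Agent.H10.CD

open Pool.Agent.H52.CD

/-- the value of the cosine -/
noncomputable def cs (l : ℕ) : ℝ := if l = 2 then 0 else if l = 3 then 1 / 2 else if l = 4 then √2 / 2 else Real.cos (Real.pi / l)

theorem cos_cs (l : ℕ) : Real.cos (Real.pi / l) = cs l := by
  unfold cs
  split_ifs with h1 h2 h3
  · subst h1
    have : Real.pi / ((2 : ℕ) : ℝ) = Real.pi / 2 := by norm_num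
    rw [this, Real.cos_pi_div_two]
  · subst h2
    have : Real.pi / ((3 : ℕ) : ℝ) = Real.pi / 3 := by norm_num
    rw [this, Real.cos_pi_div_three]
  · subst h3
    have : Real.pi / ((4 : ℕ) : ℝ) = Real.pi / 4 := by norm_num
    rw [this, Real.cos_pi_div_four]
  · rfl

theorem sum_cs (n x : ℕ) (hx : x < n) (L : ℕ → ℕ → ℕ) (v : ℕ → ℝ) :
    ∑ y ∈ (Finset.range n).erase x, Real.cos (Real.pi / sy L x y) * v y =
      ∑ y ∈ Finset.range n, cs (sy L x y) * v y - cs (sy L x x) * v x := by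
  rw [Finset.sum_erase_eq_sub (Finset.mem_range.2 hx)]
  simp only [cos_cs]

theorem cs2 : cs 2 = 0 := if_pos rfl
theorem cs3 : cs 3 = 1 / 2 := by rw [cs, if_neg (by decide), if_pos rfl]
theorem cs4 : cs 4 = √2 / 2 := by rw [cs, if_neg (by decide), if_neg (by decide), if_pos rfl]

/-- the vector of affine `E6` -/
def vE6 : ℕ → ℝ
  | 0 => 1
  | 1 => 2
  | 2 => 1
  | 3 => 2
  | 4 => 3
  | 5 => 2
  | _ => 1

theorem mE6 : ∃ v, Mdl 7 Ex.tE6.lab v := by
  refine ⟨vE6, ?_, ?_, ?_⟩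
  · intro x y _ _
    simp only [Ex.lab]
    split_ifs <;> omega
  · intro x hx
    interval_cases x <;> norm_num [vE6]
  · intro x hx
    rw [sum_cs 7 x hx]
    interval_cases x <;> norm_num [vE6, Finset.sum_range_succ, sy, Ex.lab, cs2, cs3]

/-- the vector of affine `E7` -/
def vE7 : ℕ → ℝ
  | 0 => 2
  | 1 => 1
  | 2 => 2
  | 3 => 3
  | 4 => 4
  | 5 => 3
  | 6 => 2
  | _ => 1

theorem mE7 : ∃ v, Mdl 8 Ex.tE7.lab v := by
  refine ⟨vE7, ?_, ?_, ?_⟩
  · intro x y _ _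
    simp only [Ex.lab, lbr]
    split_ifs <;> omega
  · intro x hx
    interval_cases x <;> norm_num [vE7]
  · intro x hx
    rw [sum_cs 8 x hx]
    interval_cases x <;> norm_num [vE7, Finset.sum_range_succ, sy, Ex.lab, lbr, cs2, cs3]

/-- the vector of affine `E8` -/
def vE8 : ℕ → ℝ
  | 0 => 3
  | 1 => 2
  | 2 => 4
  | 3 => 6
  | 4 => 5
  | 5 => 4
  | 6 => 3
  | 7 => 2
  | _ => 1

theorem mE8 : ∃ v, Mdl 9 Ex.tE8.lab v := by
  refine ⟨vE8, ?_, ?_, ?_⟩
  · intro x y _ _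
    simp only [Ex.lab, lbr]
    split_ifs <;> omega
  · intro x hx
    interval_cases x <;> norm_num [vE8]
  · intro x hx
    rw [sum_cs 9 x hx]
    interval_cases x <;> norm_num [vE8, Finset.sum_range_succ, sy, Ex.lab, lbr, cs2, cs3]

/-- the vector of affine `F4` -/
noncomputable def vF4 : ℕ → ℝ
  | 0 => √2
  | 1 => 2 * √2
  | 2 => 3
  | 3 => 2
  | _ => 1

theorem mF4 : ∃ v, Mdl 5 Ex.tF4.lab v := by
  have h2 : √2 * √2 = 2 := Real.mul_self_sqrt (by norm_num)
  refine ⟨vF4, ?_, ?_, ?_⟩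
  · intro x y _ _
    simp only [Ex.lab]
    split_ifs <;> omega
  · intro x hx
    interval_cases x <;> norm_num [vF4]
  · intro x hx
    rw [sum_cs 5 x hx]
    interval_cases x <;> norm_num [vF4, Finset.sum_range_succ, sy, Ex.lab, cs2, cs3, cs4] <;> nlinarith [h2]

theorem cs5 : 4 / 5 ≤ cs 5 := by
  rw [← cos_cs]
  have h1 : Real.cos (Real.pi / ((5 : ℕ) : ℝ)) = (1 + √5) / 4 := by
    have : Real.pi / ((5 : ℕ) : ℝ) = Real.pi / 5 := by norm_num
    rw [this, Real.cos_pi_div_five]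
  have h2 : (11 / 5 : ℝ) ≤ √5 := Real.le_sqrt_of_sq_le (by norm_num)
  rw [h1]
  linarith

/-- a label `5` in the interior -/
def LXa (x y : ℕ) : ℕ := if x + 1 = y then (if x = 1 then 5 else 3) else 2

/-- the vector -/
def vXa : ℕ → ℝ
  | 0 => 1
  | 1 => 2
  | 2 => 2
  | _ => 1

theorem mXa : ∃ v, Mdl 4 LXa v ∧ ∃ x, x < 4 ∧ v x < ∑ y ∈ (Finset.range 4).erase x, Real.cos (Real.pi / sy LXa x y) * v y := by
  have h5 := cs5
  refine ⟨vXa, ⟨?_, ?_, ?_⟩, 1, by norm_num, ?_⟩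
  · intro x y _ _
    simp only [LXa]
    split_ifs <;> omega
  · intro x hx
    interval_cases x <;> norm_num [vXa]
  · intro x hx
    rw [sum_cs 4 x hx]
    interval_cases x <;> norm_num [vXa, Finset.sum_range_succ, sy, LXa, cs2, cs3] <;> linarith
  · rw [sum_cs 4 1 (by norm_num)]
    norm_num [vXa, Finset.sum_range_succ, sy, LXa, cs2, cs3]
    linarith

/-- a label `5` at the end of a path with five vertices -/
def LXb (x y : ℕ) : ℕ := if x + 1 = y then (if x = 0 then 5 else 3) else 2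

/-- the vector -/
noncomputable def vXb : ℕ → ℝ
  | 0 => 16 / 5
  | 1 => 4
  | 2 => 3
  | 3 => 2
  | _ => 1

theorem mXb : ∃ v, Mdl 5 LXb v ∧ ∃ x, x < 5 ∧ v x < ∑ y ∈ (Finset.range 5).erase x, Real.cos (Real.pi / sy LXb x y) * v y := by
  have h5 := cs5
  refine ⟨vXb, ⟨?_, ?_, ?_⟩, 1, by norm_num, ?_⟩
  · intro x y _ _
    simp only [LXb]
    split_ifs <;> omega
  · intro x hx
    interval_cases x <;> norm_num [vXb]
  · intro x hx
    rw [sum_cs 5 x hx]
    interval_cases x <;> norm_num [vXb, Finset.sum_range_succ, sy, LXb, cs2, cs3] <;> linarith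
  · rw [sum_cs 5 1 (by norm_num)]
    norm_num [vXb, Finset.sum_range_succ, sy, LXb, cs2, cs3]
    linarith

end Pool.Agent.H10.CD
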