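import Pool.Agent.H52.CD.Lng
import Pool.Agent.H10.CD.Exc

/-!
# [CD] The case of a chain and one more vertex
-/

set_option autoImplicit false

namespace Pool.Agent.H10.CD

open Finset Pool.Agent.H52.CD Pool.Agent.H52.DT

variable {B : Type} {M : CoxeterMatrix B} {T : Finset B}

/-- the type from an enumeration -/
theorem ty_of {n : ℕ} {f : ℕ → B} (mem : ∀ x, x < n → f x ∈ T) (inj : ∀ x y, x < y → y < n → f x ≠ f y)
    (hT : ∀ b ∈ T, ∃ x, x < n ∧ f x = b) {L : ℕ → ℕ → ℕ} (hL : ∀ x y, x < y → y < n → M (f x) (f y) = L x y) :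
    IsTy M T n L := by
  refine ⟨Equiv.ofBijective (fun x : Fin n => (⟨f x, mem x x.2⟩ : T)) ⟨fun x y h => ?_, fun b => ?_⟩,
    fun x y hxy => hL x y hxy y.2⟩
  · have h1 : f x = f y := congrArg (fun z : T => (z : B)) h
    apply Fin.ext
    rcases lt_trichotomy x.val y.val with h2 | h2 | h2
    · exact (inj x y h2 y.2 h1).elim
    · exact h2
    · exact (inj y x h2 x.2 h1.symm).elim
  · obtain ⟨x, hx, hxb⟩ := hT b b.2
    exact ⟨⟨x, hx⟩, Subtype.ext hxb⟩

/-- the star with the vertex `z` joined with `p k`, in the form of the exceptional diagrams -/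
theorem star_lbr {n : ℕ} {p : ℕ → B} (hp : Chn M T n p) {z : B} (hz : z ∈ T)
    (hzp : ∀ x, x < n → p x ≠ z) (hT : ∀ b ∈ T, b = z ∨ ∃ x, x < n ∧ p x = b)
    (hi : ∀ x y, x + 1 < y → y < n → M (p x) (p y) = 2) (h3 : ∀ x, x + 1 < n → M (p x) (p (x + 1)) = 3) {k : ℕ}
    (hk : k < n) (hzk : M z (p k) = 3) (hz2 : ∀ x, x < n → x ≠ k → M z (p x) = 2) : IsTy M T (n + 1) (lbr (k + 1)) := by
  refine ty_of (f := fun x => if x = 0 then z else p (x - 1)) (fun x hx => ?_) (fun x y hxy hy => ?_) (fun b hb => ?_)
    fun x y hxy hy => ?_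
  · split_ifs
    · exact hz
    · exact hp.mem _ (by omega)
  · rw [if_neg (show y ≠ 0 by omega)]
    split_ifs with h1
    · exact (hzp _ (by omega)).symm
    · exact hp.ne (by omega) (by omega) (by omega)
  · rcases hT b hb with h1 | ⟨x, hx, h1⟩
    · exact ⟨0, by omega, by rw [if_pos rfl, h1]⟩
    · refine ⟨x + 1, by omega, ?_⟩
      rw [if_neg (by omega)]
      exact h1
  · rw [if_neg (show y ≠ 0 by omega)]
    simp only [lbr]
    by_cases h1 : x = 0
    · rw [if_pos h1, if_pos h1]
      split_ifs with h2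
      · rw [h2]
        exact hzk
      · exact hz2 _ (by omega) (by omega)
    · rw [if_neg h1, if_neg h1]
      split_ifs with h2
      · have h4 := h3 (x - 1) (by omega)
        have e1 : x - 1 + 1 = y - 1 := by omega
        rwa [e1] at h4
      · exact hi _ _ (by omega) (by omega)

/-- the vertex `z` is joined with the second vertex -/
theorem star_D {n : ℕ} {p : ℕ → B} (hp : Chn M T n p) {z : B} (hz : z ∈ T)
    (hzp : ∀ x, x < n → p x ≠ z) (hT : ∀ b ∈ T, b = z ∨ ∃ x, x < n ∧ p x = b)
    (hi : ∀ x y, x + 1 < y → y < n → M (p x) (p y) = 2) (h3 : ∀ x, x + 1 < n → M (p x) (p (x + 1)) = 3)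
    (hn : 3 ≤ n) (hzk : M z (p 1) = 3) (hz2 : ∀ x, x < n → x ≠ 1 → M z (p x) = 2) : IsCl M T := by
  have key : IsTy M T (n + 1) (Cl.D.lab (n + 1)) := by
    refine ty_of (f := fun x => if x = n then z else p (n - 1 - x)) (fun x hx => ?_) (fun x y hxy hy => ?_) (fun b hb => ?_)
      fun x y hxy hy => ?_
    · split_ifs
      · exact hz
      · exact hp.mem _ (by omega)
    · rw [if_neg (show x ≠ n by omega)]
      split_ifs with h1
      · exact hzp _ (by omega)
      · exact hp.ne (by omega) (by omega) (by omega)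
    · rcases hT b hb with h1 | ⟨x, hx, h1⟩
      · exact ⟨n, by omega, by rw [if_pos rfl, h1]⟩
      · refine ⟨n - 1 - x, by omega, ?_⟩
        rw [if_neg (by omega)]
        have e1 : n - 1 - (n - 1 - x) = x := by omega
        rw [e1]
        exact h1
    · rw [if_neg (show x ≠ n by omega)]
      change _ = if y + 1 = n + 1 then (if x + 3 = n + 1 then 3 else 2) else if x + 1 = y then 3 else 2
      by_cases h1 : y = n
      · rw [if_pos h1, if_pos (show y + 1 = n + 1 by omega), M.symmetric]
        split_ifs with h2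
        · have e1 : n - 1 - x = 1 := by omega
          rw [e1]
          exact hzk
        · exact hz2 _ (by omega) (by omega)
      · rw [if_neg h1, if_neg (show ¬ y + 1 = n + 1 by omega)]
        split_ifs with h2
        · have h4 := h3 (n - 1 - y) (by omega)
          have e1 : n - 1 - y + 1 = n - 1 - x := by omega
          rw [e1] at h4
          rw [M.symmetric]
          exact h4
        · rw [M.symmetric]
          exact hi _ _ (by omega) (by omega)
  obtain ⟨e, he⟩ := key
  exact ⟨.D, n + 1, e, (by change 4 ≤ n + 1; omega), he⟩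

/-- the short arm first -/
theorem star_aux (h : Hy M T) {n : ℕ} {p : ℕ → B} (hp : Chn M T n p) {z : B} (hz : z ∈ T)
    (hzp : ∀ x, x < n → p x ≠ z) (hT : ∀ b ∈ T, b = z ∨ ∃ x, x < n ∧ p x = b)
    (hi : ∀ x y, x + 1 < y → y < n → M (p x) (p y) = 2) (h3 : ∀ x, x + 1 < n → M (p x) (p (x + 1)) = 3) {k : ℕ}
    (hk1 : 1 ≤ k) (hk2 : k ≤ n - 1 - k) (hk3 : k + 1 < n) (hzk : M z (p k) = 3)
    (hz2 : ∀ x, x < n → x ≠ k → M z (p x) = 2) : IsCl M T ∨ IsEx M T := by
  rcases Nat.lt_or_ge k 2 with h1 | h1
  · have h2 : k = 1 := by omega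
    subst h2
    exact Or.inl (star_D hp hz hzp hT hi h3 (by omega) hzk hz2)
  right
  rcases Nat.lt_or_ge k 3 with h2 | h2
  · have h4 : k = 2 := by omega
    subst h4
    have h5 := star_lbr hp hz hzp hT hi h3 (by omega) hzk hz2
    rcases Nat.lt_or_ge n 8 with h6 | h6
    · have h7 : n = 5 ∨ n = 6 ∨ n = 7 := by omega
      rcases h7 with rfl | rfl | rfl
      · exact ⟨.E6, h5⟩
      · exact ⟨.E7, h5⟩
      · exact ⟨.E8, h5⟩
    · obtain ⟨v, hv⟩ := mE8
      suffices h0 : IsTy M T 9 Ex.tE8.lab from ⟨.tE8, h0⟩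
      refine cmp (f := fun x => if x = 0 then z else p (x - 1)) h.toHyp hv
        (emb_of h (fun x hx => ?_) (fun x y hxy hy => ?_) fun x y hxy hy => ?_) (by decide)
      · split_ifs
        · exact hz
        · exact hp.mem _ (by omega)
      · rw [if_neg (show y ≠ 0 by omega)]
        split_ifs with h7
        · exact (hzp _ (by omega)).symm
        · exact hp.ne (by omega) (by omega) (by omega)
      · change (if x = 0 then (if y = 3 then 3 else 2) else if x + 1 = y then 3 else 2) = 2 ∨
          (if x = 0 then (if y = 3 then 3 else 2) else if x + 1 = y then 3 else 2) ≤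
          M (if x = 0 then z else p (x - 1)) (if y = 0 then z else p (y - 1))
        rw [if_neg (show y ≠ 0 by omega)]
        by_cases h7 : x = 0
        · rw [if_pos h7, if_pos h7]
          split_ifs with h8
          · right
            subst h8
            exact hzk.ge
          · exact Or.inl rfl
        · rw [if_neg h7, if_neg h7]
          split_ifs with h8
          · right
            have h9 := hp.adj (x - 1) (by omega)
            have e1 : x - 1 + 1 = y - 1 := by omega
            rwa [e1] at h9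
          · exact Or.inl rfl
  · obtain ⟨v, hv⟩ := mE7
    suffices h0 : IsTy M T 8 Ex.tE7.lab from ⟨.tE7, h0⟩
    refine cmp (f := fun x => if x = 0 then z else p (k + x - 4)) h.toHyp hv
      (emb_of h (fun x hx => ?_) (fun x y hxy hy => ?_) fun x y hxy hy => ?_) (by decide)
    · split_ifs
      · exact hz
      · exact hp.mem _ (by omega)
    · rw [if_neg (show y ≠ 0 by omega)]
      split_ifs with h7
      · exact (hzp _ (by omega)).symm
      · exact hp.ne (by omega) (by omega) (by omega)
    · change (if x = 0 then (if y = 4 then 3 else 2) else if x + 1 = y then 3 else 2) = 2 ∨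
        (if x = 0 then (if y = 4 then 3 else 2) else if x + 1 = y then 3 else 2) ≤
        M (if x = 0 then z else p (k + x - 4)) (if y = 0 then z else p (k + y - 4))
      rw [if_neg (show y ≠ 0 by omega)]
      by_cases h7 : x = 0
      · rw [if_pos h7, if_pos h7]
        split_ifs with h8
        · right
          subst h8
          have e1 : k + 4 - 4 = k := by omega
          rw [e1]
          exact hzk.ge
        · exact Or.inl rfl
      · rw [if_neg h7, if_neg h7]
        split_ifs with h8
        · right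
          have h9 := hp.adj (k + x - 4) (by omega)
          have e1 : k + x - 4 + 1 = k + y - 4 := by omega
          rwa [e1] at h9
        · exact Or.inl rfl

/-- a chain and one more vertex -/
theorem end_star (h : Hy M T) {n : ℕ} {p : ℕ → B} (hp : Chn M T n p) {z : B} (hz : z ∈ T)
    (hzp : ∀ x, x < n → p x ≠ z) (hT : ∀ b ∈ T, b = z ∨ ∃ x, x < n ∧ p x = b)
    (hi : ∀ x y, x + 1 < y → y < n → M (p x) (p y) = 2) (h3 : ∀ x, x + 1 < n → M (p x) (p (x + 1)) = 3) {k : ℕ}
    (hk1 : 1 ≤ k) (hk2 : k + 1 < n) (hzk : M z (p k) = 3) (hz2 : ∀ x, x < n → x ≠ k → M z (p x) = 2) :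
    IsCl M T ∨ IsEx M T := by
  rcases Nat.lt_or_ge (n - 1 - k) k with h1 | h1
  · refine star_aux h hp.rev hz (fun x hx => hzp _ (by omega)) (fun b hb => ?_) (fun x y hxy hy => ?_) (fun x hx => ?_)
      (k := n - 1 - k) (by omega) (by omega) (by omega) ?_ fun x hx hxk => ?_
    · rcases hT b hb with h2 | ⟨x, hx, h2⟩
      · exact Or.inl h2
      · refine Or.inr ⟨n - 1 - x, by omega, ?_⟩
        have e1 : n - 1 - (n - 1 - x) = x := by omega
        change p (n - 1 - (n - 1 - x)) = b
        rw [e1, h2]
    · rw [M.symmetric]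
      exact hi _ _ (by omega) (by omega)
    · have h4 := h3 (n - 1 - (x + 1)) (by omega)
      have e1 : n - 1 - (x + 1) + 1 = n - 1 - x := by omega
      rw [e1] at h4
      rw [M.symmetric]
      exact h4
    · have e1 : n - 1 - (n - 1 - k) = k := by omega
      change M z (p (n - 1 - (n - 1 - k))) = 3
      rw [e1]
      exact hzk
    · exact hz2 _ (by omega) (by omega)
  · exact star_aux h hp hz hzp hT hi h3 hk1 h1 hk2 hzk hz2

end Pool.Agent.H10.CD
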